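import Pool.Agent.X187.EA.Lat2

/-!
# Sparse rewriting of the couplings does not change the number of Edwards–Anderson Gibbs states

There is a deterministic scale `ρ : ℕ → ℕ → ℕ` such that for almost every realisation of the symmetric
`±1` couplings `J` on `ℤ^d`, every modification of the couplings (by real numbers) and of the external
field which is sparse at the scale `ρ` has exactly as many linearly independent Gibbs states as `J`.
Sparse means: there are radii `n_0 < n_1 < ...` and budgets `b_0, b_1, ...` such that for every `k` the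
modification vanishes between the cubes of radii `n_k` and `ρ(n_k, b_k)`, and its total size between the
cubes of radii `n_k` and `n_{k+1}` is at most `b_k`. The budgets may tend to infinity as fast as one
likes: for instance, `J` may be rewritten with values in `[-A_k, A_k]` on translates `z_k + F_k` of given
finite sets (larger and larger cubes) if each `z_k` avoids finitely many sites, which depend on
`z_0, ..., z_{k-1}`. In particular the answer to the question whether there is more than one Gibbs
state is not changed.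
-/

set_option autoImplicit false

open MeasureTheory

namespace Pool.Agent.Results.MP_81d17b_pr.InvisibleCouplings

/-- Sites of `ℤ^d`. -/
abbrev Site (d : ℕ) : Type := Fin d → ℤ

/-- Edges of `ℤ^d`: the pair `(x, i)` is the nearest-neighbour edge `{x, x + e_i}`. -/
abbrev Edge (d : ℕ) : Type := Site d × Fin d

/-- the finite set of edges with at least one end in `Λ` -/
def edgesOf {d : ℕ} (Λ : Finset (Site d)) : Finset (Edge d) :=
  (Λ ×ˢ Finset.univ) ∪ (Λ ×ˢ Finset.univ).image fun p => (p.1 - Pi.single p.2 1, p.2)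

/-- `true ↦ +1`, `false ↦ -1`. -/
def sg (b : Bool) : ℝ := if b then 1 else -1

/-- the configuration `τ` with the spins in `B` flipped -/
def flip {d : ℕ} (B : Finset (Site d)) (τ : Site d → Bool) : Site d → Bool :=
  fun x => if x ∈ B then !τ x else τ x

/-- `∑_{e = {x,y}, e ∩ Λ ≠ ∅} J_e σ_x σ_y + ∑_{x ∈ Λ} h_x σ_x` -/
def ham {d : ℕ} (J : Edge d → ℝ) (h : Site d → ℝ) (Λ : Finset (Site d)) (σ : Site d → Bool) : ℝ :=
  ∑ e ∈ edgesOf Λ, J e * sg (σ e.1) * sg (σ (e.1 + Pi.single e.2 1)) + ∑ x ∈ Λ, h x * sg (σ x)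

/-- the expectation of `f` under the Edwards–Anderson measure in `Λ` with boundary condition `τ`; the
configurations which agree with `τ` off `Λ` are the `flip B τ`, `B ⊆ Λ` -/
noncomputable def gE {d : ℕ} (β : ℝ) (J : Edge d → ℝ) (h : Site d → ℝ) (Λ : Finset (Site d))
    (f : (Site d → Bool) → ℝ) (τ : Site d → Bool) : ℝ :=
  (∑ B ∈ Λ.powerset, Real.exp (β * ham J h Λ (flip B τ)) * f (flip B τ)) /
    ∑ B ∈ Λ.powerset, Real.exp (β * ham J h Λ (flip B τ))

/-- Gibbs states at `(β, J, h)`: probability measures which satisfy the DLR equations for all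
finite boxes `Λ = {x : a ≤ x ≤ b}`. -/
def IsGibbs {d : ℕ} (β : ℝ) (J : Edge d → ℝ) (h : Site d → ℝ) (π : Measure (Site d → Bool)) :
    Prop :=
  IsProbabilityMeasure π ∧ ∀ (a b : Site d) (A : Set (Site d → Bool)), MeasurableSet A →
    (π A).toReal = ∫ τ, gE β J h (Finset.Icc a b) (A.indicator fun _ => (1 : ℝ)) τ ∂π

/-- there are `m` linearly independent Gibbs states (as functionals on continuous functions) -/
def HasIndependent {d : ℕ} (β : ℝ) (J : Edge d → ℝ) (h : Site d → ℝ) (m : ℕ) : Prop :=
  ∃ π : Fin m → Measure (Site d → Bool), (∀ i, IsGibbs β J h (π i)) ∧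
    LinearIndependent ℝ (fun (i : Fin m) (f : C(Site d → Bool, ℝ)) => ∫ σ, f σ ∂(π i))

/-- the law of independent fair signs on the edges -/
noncomputable def signLaw (d : ℕ) : Measure (Edge d → Bool) :=
  Measure.infinitePi fun _ => (PMF.uniformOfFintype Bool).toMeasure

/-- the cube `[-n, n]^d` -/
noncomputable def cube (d n : ℕ) : Finset (Site d) :=
  Finset.Icc (fun _ => -(n : ℤ)) (fun _ => (n : ℤ))

/-- `(J', h')` is a modification of `(J, 0)` which is sparse at the scale `ρ`: there are radii
`n_0 < n_1 < ...` and budgets `b_0, b_1, ...` such that for every `k` it coincides with `(J, 0)` at the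
edges and sites of the cube of radius `ρ(n_k, b_k)` outside the cube of radius `n_k`, and the sum of
`|J' - J|` and of `|h'|` over the cube of radius `n_{k+1}` outside the cube of radius `n_k` is at most
`b_k`. (An edge belongs to a cube if at least one of its ends does.) -/
def IsSparse {d : ℕ} (ρ : ℕ → ℕ → ℕ) (J J' : Edge d → ℝ) (h' : Site d → ℝ) : Prop :=
  ∃ n b : ℕ → ℕ, StrictMono n ∧
    (∀ k, ∀ e ∈ edgesOf (cube d (ρ (n k) (b k))), e ∉ edgesOf (cube d (n k)) → J' e = J e) ∧
    (∀ k, ∀ x ∈ cube d (ρ (n k) (b k)), x ∉ cube d (n k) → h' x = 0) ∧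
    ∀ k, ∑ e ∈ edgesOf (cube d (n (k + 1))) \ edgesOf (cube d (n k)), |J' e - J e| +
      ∑ x ∈ cube d (n (k + 1)) \ cube d (n k), |h' x| ≤ b k

/-- the translate `z + F` -/
def tr {d : ℕ} (z : Site d) (F : Finset (Site d)) : Finset (Site d) := F.image fun c => z + c

/-- `(J', h')` is obtained from `(J, 0)` by rewriting the couplings of the edges which meet the
translates `z_k + F_k`, and the fields on these translates, with values in `[-A_k, A_k]` -/
structure IsRewriting {d : ℕ} (F : ℕ → Finset (Site d)) (A : ℕ → ℝ) (z : ℕ → Site d)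
    (J J' : Edge d → ℝ) (h' : Site d → ℝ) : Prop where
  coupling_off : ∀ e, (∀ k, e ∉ edgesOf (tr (z k) (F k))) → J' e = J e
  coupling_on : ∀ k, ∀ e ∈ edgesOf (tr (z k) (F k)), |J' e| ≤ A k
  field_off : ∀ x, (∀ k, x ∉ tr (z k) (F k)) → h' x = 0
  field_on : ∀ k, ∀ x ∈ tr (z k) (F k), |h' x| ≤ A k

open X187.EA in
theorem gE_eq {d : ℕ} (β : ℝ) (J : Edge d → ℝ) (h : Site d → ℝ) (Λ : Finset (Site d))
    (f : (Site d → Bool) → ℝ) (τ : Site d → Bool) :
    gE β J h Λ f τ = gg (EAs d) (env β J h) Λ f τ := by
  have hH : ∀ σ, β * ham J h Λ σ = HH (EAs d) (env β J h) Λ σ := by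
    intro σ
    show _ = ∑ i ∈ (eds Λ).disjSum Λ, _
    rw [Finset.sum_disjSum]
    unfold ham
    rw [mul_add, Finset.mul_sum, Finset.mul_sum]
    congr 1
    · refine Finset.sum_congr rfl fun e _ => ?_
      show _ = β * J e * (sg (σ e.1) * sg (σ (e.1 + Pi.single e.2 1)))
      ring
    · refine Finset.sum_congr rfl fun x _ => ?_
      show _ = β * h x * sg (σ x)
      ring
  unfold gE
  simp only [hH]
  rfl

open X187.EA in
theorem isGibbs_iff {d : ℕ} (β : ℝ) (J : Edge d → ℝ) (h : Site d → ℝ)
    (π : Measure (Site d → Bool)) : IsGibbs β J h π ↔ IsG (EAs d) (env β J h) π := by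
  constructor
  · rintro ⟨hp, hD⟩
    refine isG_of hp (Set.range fun q : Site d × Site d => Finset.Icc q.1 q.2) (fun Λ => ?_) ?_
    · obtain ⟨n, hn⟩ := (cubes d).sub Λ
      exact ⟨_, ⟨(fun _ => -(n : ℤ), fun _ => (n : ℤ)), rfl⟩, hn n le_rfl⟩
    · rintro _ ⟨q, rfl⟩ A hA
      rw [hD q.1 q.2 A hA]
      exact integral_congr_ae (ae_of_all _ fun τ => gE_eq β J h _ _ τ)
  · intro hG
    refine ⟨hG.1, fun a b A hA => ?_⟩
    rw [hG.sets (Finset.Icc a b) hA]
    exact integral_congr_ae (ae_of_all _ fun τ => (gE_eq β J h _ _ τ).symm)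

open X187.EA in
theorem hasIndependent_iff {d : ℕ} (β : ℝ) (J : Edge d → ℝ) (h : Site d → ℝ) (m : ℕ) :
    HasIndependent β J h m ↔ HasN (EAs d) (env β J h) m := by
  unfold HasIndependent HasN
  simp only [isGibbs_iff]

open X187.EA in
theorem unique_iff' {d : ℕ} (β : ℝ) (J : Edge d → ℝ) (h : Site d → ℝ) :
    (∃! π, IsGibbs β J h π) ↔ ¬ HasIndependent β J h 2 := by
  rw [hasIndependent_iff, ← unique_iff (env β J h) (cubes d)]
  simp only [isGibbs_iff]

/-- Let `d` be any dimension and `ν` a probability measure on `ℝ` (inverse temperatures: for instance a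
point mass at `β`, or a measure equivalent to Lebesgue measure). There is a function `ρ : ℕ → ℕ → ℕ`
such that:

* for almost every `(β, J)`, where `J` are symmetric `±1` couplings, and for all real couplings `J'` and
  fields `h'` which are a modification of `(J, 0)` sparse at the scale `ρ`, there are `m` linearly
  independent Gibbs states at `(β, J', h')` if and only if there are `m` linearly independent Gibbs
  states at `(β, J)`, for every `m`; and there is exactly one Gibbs state at `(β, J', h')` if and only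
  if there is exactly one at `(β, J)`;
* for all finite sets of sites `F_0, F_1, ...` and all reals `A_0, A_1, ...` there is a rule `R`, which
  assigns to each finite list of sites a finite set of sites, such that for every sequence
  `z_0, z_1, ...` with `z_k ∉ R(z_0, ..., z_{k-1})` for all `k` and for all couplings `J` with values in
  `[-1, 1]`, all `(J', h')` obtained from `(J, 0)` by rewriting on the translates `z_k + F_k` with values
  in `[-A_k, A_k]` are sparse at the scale `ρ`. -/
theorem result (d : ℕ) (ν : Measure ℝ) [IsProbabilityMeasure ν] :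
    ∃ ρ : ℕ → ℕ → ℕ,
      (∀ᵐ p ∂(ν.prod (signLaw d)), ∀ (J' : Edge d → ℝ) (h' : Site d → ℝ),
        IsSparse ρ (fun e => sg (p.2 e)) J' h' →
          (∀ m, HasIndependent p.1 J' h' m ↔
            HasIndependent p.1 (fun e => sg (p.2 e)) (fun _ => 0) m) ∧
          ((∃! π, IsGibbs p.1 J' h' π) ↔
            ∃! π, IsGibbs p.1 (fun e => sg (p.2 e)) (fun _ => 0) π)) ∧
      ∀ (F : ℕ → Finset (Site d)) (A : ℕ → ℝ),
        ∃ R : List (Site d) → Finset (Site d), ∀ z : ℕ → Site d,
          (∀ k, z k ∉ R ((List.range k).map z)) →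
            ∀ (J J' : Edge d → ℝ) (h' : Site d → ℝ), (∀ e, |J e| ≤ 1) →
              IsRewriting F A z J J' h' → IsSparse ρ J J' h' := by
  have : IsProbabilityMeasure (signLaw d) := by unfold signLaw; infer_instance
  have hJ : Measurable fun p : ℝ × (Edge d → Bool) => fun e => sg (p.2 e) := by
    apply measurable_pi_lambda
    intro e
    exact (measurable_of_finite sg).comp ((measurable_pi_apply e).comp measurable_snd)
  have hb : ∀ᵐ p ∂(ν.prod (signLaw d)), ∃ B : ℝ, ∀ e, |sg (p.2 e)| ≤ B :=
    ae_of_all _ fun p => ⟨1, fun e => (X187.EA.abs_sgn (p.2 e)).le⟩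
  obtain ⟨ρ, hρ⟩ := X187.EA.lattice2 (ν.prod (signLaw d)) (β := fun p => p.1) measurable_fst hJ hb
  refine ⟨ρ, ?_, fun F A => ?_⟩
  · filter_upwards [hρ] with p hp J' h' hs
    have key : ∀ m, HasIndependent p.1 J' h' m ↔
        HasIndependent p.1 (fun e => sg (p.2 e)) (fun _ => 0) m := by
      intro m
      rw [hasIndependent_iff, hasIndependent_iff]
      exact hp J' h' hs m
    refine ⟨key, ?_⟩
    rw [unique_iff', unique_iff', key 2]
  · obtain ⟨R, hR⟩ := X187.EA.rich_lattice ρ F A
    exact ⟨R, fun z hz J J' h' h1 hrw =>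
      hR z hz J J' h' h1 hrw.coupling_off hrw.coupling_on hrw.field_off hrw.field_on⟩

end Pool.Agent.Results.MP_81d17b_pr.InvisibleCouplings
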