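import Pool.Agent.X59.EA.Sqrt

/-!
# Edwards-Anderson model: the topologically typical couplings have the fewest Gibbs states

Let `K` be a set of real numbers (the possible values of a coupling, for instance `{-1, 1}`), and give
the space of the coupling vectors `J : edges of ℤ^d → K` the product topology; if `K` is closed this is
a Polish space. A property is typical if it holds for all `J` outside of a set of the first category.
The question of the problem is the one for almost all `J ∈ {-1, 1}^E`; here it is answered for the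
typical `J`, up to the behaviour of the best single coupling vector:

* if one coupling vector `J₀`, however special, has at most `m - 1` linearly independent Gibbs states
  for all inverse temperatures in a σ-compact set `B`, then so has the typical `J`, for all inverse
  temperatures in `B` at the same time; so the number of linearly independent Gibbs states of the
  typical `J` is the minimum of these numbers (and the typical `J` has a unique Gibbs state if some
  `J₀` has one);
* the critical inverse temperature of the typical `J` is the supremum of the critical inverse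
  temperatures of all coupling vectors;
* for `K = {-1, 1}` the typical `J` has exactly one Gibbs state for all `0 ≤ β ≤ c / √d`, with an
  absolute constant `c > 0` (for comparison, the critical inverse temperature of `J = 1` is of order
  `1 / d`);
* if `0 ∈ K`, for instance `K = [-1, 1]`, the typical `J` has exactly one Gibbs state at every
  temperature, in every dimension.
-/

set_option autoImplicit false

open MeasureTheory Filter Topology

namespace Pool.Agent.Results.MP_81d17b_pr.TypicalCouplings

/-- Sites of `ℤ^d`. -/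
abbrev Site (d : ℕ) : Type := Fin d → ℤ

/-- Edges of `ℤ^d`: the pair `(x, i)` is the nearest-neighbour edge `{x, x + e_i}`. -/
abbrev Edge (d : ℕ) : Type := Site d × Fin d

/-- the finite set of edges with at least one end in `Λ` -/
def edgesOf {d : ℕ} (Λ : Finset (Site d)) : Finset (Edge d) :=
  (Λ ×ˢ Finset.univ) ∪ (Λ ×ˢ Finset.univ).image fun p => (p.1 - Pi.single p.2 1, p.2)

/-- `true ↦ +1`, `false ↦ -1`. -/
def sg (b : Bool) : ℝ := if b then 1 else -1

/-- the configuration `τ` with the spins in `B` flipped -/
def flip {d : ℕ} (B : Finset (Site d)) (τ : Site d → Bool) : Site d → Bool :=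
  fun x => if x ∈ B then !τ x else τ x

/-- `∑_{e = {x,y}, e ∩ Λ ≠ ∅} J_e σ_x σ_y + ∑_{x ∈ Λ} h_x σ_x` -/
def ham {d : ℕ} (J : Edge d → ℝ) (h : Site d → ℝ) (Λ : Finset (Site d)) (σ : Site d → Bool) : ℝ :=
  ∑ e ∈ edgesOf Λ, J e * sg (σ e.1) * sg (σ (e.1 + Pi.single e.2 1)) + ∑ x ∈ Λ, h x * sg (σ x)

/-- the expectation of `f` under the Edwards–Anderson measure in `Λ` with boundary condition `τ` (and
with an external field `h`); the configurations which agree with `τ` off `Λ` are the `flip B τ`,
`B ⊆ Λ` -/
noncomputable def gE {d : ℕ} (β : ℝ) (J : Edge d → ℝ) (h : Site d → ℝ) (Λ : Finset (Site d))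
    (f : (Site d → Bool) → ℝ) (τ : Site d → Bool) : ℝ :=
  (∑ B ∈ Λ.powerset, Real.exp (β * ham J h Λ (flip B τ)) * f (flip B τ)) /
    ∑ B ∈ Λ.powerset, Real.exp (β * ham J h Λ (flip B τ))

/-- Gibbs states at `(β, J, h)`: probability measures which satisfy the DLR equations for all
finite boxes `Λ = {x : a ≤ x ≤ b}`. -/
def IsGibbs {d : ℕ} (β : ℝ) (J : Edge d → ℝ) (h : Site d → ℝ) (π : Measure (Site d → Bool)) :
    Prop :=
  IsProbabilityMeasure π ∧ ∀ (a b : Site d) (A : Set (Site d → Bool)), MeasurableSet A →
    (π A).toReal = ∫ τ, gE β J h (Finset.Icc a b) (A.indicator fun _ => (1 : ℝ)) τ ∂π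

/-- there are `m` linearly independent Gibbs states (as functionals on continuous functions) -/
def HasIndependent {d : ℕ} (β : ℝ) (J : Edge d → ℝ) (h : Site d → ℝ) (m : ℕ) : Prop :=
  ∃ π : Fin m → Measure (Site d → Bool), (∀ i, IsGibbs β J h (π i)) ∧
    LinearIndependent ℝ (fun (i : Fin m) (f : C(Site d → Bool, ℝ)) => ∫ σ, f σ ∂(π i))

/-- `β_c(J, h)`, the supremum of the `β > 0` with a unique Gibbs state -/
noncomputable def betaC {d : ℕ} (J : Edge d → ℝ) (h : Site d → ℝ) : ENNReal :=
  ⨆ (β : ℝ) (_ : 0 < β ∧ ∃! π, IsGibbs β J h π), ENNReal.ofReal β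

/-- the coupling vector as a function with real values -/
def val {d : ℕ} {K : Set ℝ} (J : Edge d → K) : Edge d → ℝ := fun e => (J e : ℝ)

/-- the property `P` of coupling vectors with values in `K` is typical: it holds for all coupling
vectors outside of a set of the first category (for the product topology) -/
def Typically {d : ℕ} {K : Set ℝ} (P : (Edge d → K) → Prop) : Prop :=
  ∀ᶠ J in residual (Edge d → K), P J

open Pool.Agent.X187.EA in
theorem gE_eq {d : ℕ} (β : ℝ) (J : Edge d → ℝ) (h : Site d → ℝ) (Λ : Finset (Site d))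
    (f : (Site d → Bool) → ℝ) (τ : Site d → Bool) :
    gE β J h Λ f τ = gg (EAs d) (env β J h) Λ f τ := by
  have hH : ∀ σ, β * ham J h Λ σ = HH (EAs d) (env β J h) Λ σ := by
    intro σ
    show _ = ∑ i ∈ (eds Λ).disjSum Λ, _
    rw [Finset.sum_disjSum]
    unfold ham
    rw [mul_add, Finset.mul_sum, Finset.mul_sum]
    congr 1
    · refine Finset.sum_congr rfl fun e _ => ?_
      show _ = β * J e * (sg (σ e.1) * sg (σ (e.1 + Pi.single e.2 1)))
      ring
    · refine Finset.sum_congr rfl fun x _ => ?_
      show _ = β * h x * sg (σ x)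
      ring
  unfold gE
  simp only [hH]
  rfl

open Pool.Agent.X187.EA in
theorem isGibbs_iff {d : ℕ} (β : ℝ) (J : Edge d → ℝ) (h : Site d → ℝ)
    (π : Measure (Site d → Bool)) : IsGibbs β J h π ↔ IsG (EAs d) (env β J h) π := by
  constructor
  · rintro ⟨hp, hD⟩
    refine isG_of hp (Set.range fun q : Site d × Site d => Finset.Icc q.1 q.2) (fun Λ => ?_) ?_
    · obtain ⟨n, hn⟩ := (cubes d).sub Λ
      exact ⟨_, ⟨(fun _ => -(n : ℤ), fun _ => (n : ℤ)), rfl⟩, hn n le_rfl⟩
    · rintro _ ⟨q, rfl⟩ A hA
      rw [hD q.1 q.2 A hA]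
      exact integral_congr_ae (ae_of_all _ fun τ => gE_eq β J h _ _ τ)
  · intro hG
    refine ⟨hG.1, fun a b A hA => ?_⟩
    rw [hG.sets (Finset.Icc a b) hA]
    exact integral_congr_ae (ae_of_all _ fun τ => (gE_eq β J h _ _ τ).symm)

open Pool.Agent.X187.EA in
theorem hasIndependent_iff {d : ℕ} (β : ℝ) (J : Edge d → ℝ) (h : Site d → ℝ) (m : ℕ) :
    HasIndependent β J h m ↔ HasN (EAs d) (env β J h) m := by
  unfold HasIndependent HasN
  simp only [isGibbs_iff]

open Pool.Agent.X187.EA in
theorem unique_iff' {d : ℕ} (β : ℝ) (J : Edge d → ℝ) (h : Site d → ℝ) :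
    (∃! π, IsGibbs β J h π) ↔ ¬ HasIndependent β J h 2 := by
  rw [hasIndependent_iff, ← unique_iff (env β J h) (cubes d)]
  simp only [isGibbs_iff]

theorem betaC_eq {d : ℕ} (J : Edge d → ℝ) (h : Site d → ℝ) :
    betaC J h = Pool.Agent.X59.EA.bC J h := by
  unfold betaC Pool.Agent.X59.EA.bC
  simp only [unique_iff', hasIndependent_iff]

/-- (0) If `K` is closed then typical properties hold on a dense set. There is a unique Gibbs state if
and only if there are no two linearly independent ones.
(1) If one coupling vector `J₀` with values in `K` does not have `m` linearly independent Gibbs states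
at any `β` in the σ-compact set `B`, then neither has the typical `J`.
(2) The critical inverse temperature of the typical `J` is the supremum over all coupling vectors.
(3) `K = {-1, 1}`, no field: for the typical `J` the Gibbs state is unique for all
`0 ≤ β ≤ c / √d`.
(4) `0 ∈ K`, no field: for the typical `J` the Gibbs state is unique for all `β`. -/
theorem result :
    (∀ (d : ℕ) (K : Set ℝ),
      (IsClosed K → ∀ P : (Edge d → K) → Prop, Typically P → Dense {J | P J}) ∧
      (∀ (β : ℝ) (J : Edge d → ℝ) (h : Site d → ℝ),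
        (∃! π, IsGibbs β J h π) ↔ ¬ HasIndependent β J h 2) ∧
      (∀ (h : Site d → ℝ) (B : Set ℝ), IsSigmaCompact B → ∀ (m : ℕ) (J₀ : Edge d → K),
        (∀ β ∈ B, ¬ HasIndependent β (val J₀) h m) →
        Typically fun J : Edge d → K => ∀ β ∈ B, ¬ HasIndependent β (val J) h m) ∧
      (∀ h : Site d → ℝ, Typically fun J : Edge d → K =>
        betaC (val J) h = ⨆ J₀ : Edge d → K, betaC (val J₀) h) ∧
      ((0 : ℝ) ∈ K → Typically fun J : Edge d → K =>
        ∀ β : ℝ, ∃! π, IsGibbs β (val J) (fun _ => 0) π)) ∧
    ∃ c : ℝ, 0 < c ∧ ∀ d : ℕ, 1 ≤ d → Typically fun J : Edge d → ({-1, 1} : Set ℝ) =>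
      ∀ β : ℝ, 0 ≤ β → β ≤ c / √(d : ℝ) → ∃! π, IsGibbs β (val J) (fun _ => 0) π := by
  refine ⟨fun d K => ⟨fun hK P hP => ?_, fun β J h => unique_iff' β J h,
    fun h B hB m J₀ h0 => ?_, fun h => ?_, fun h0 => ?_⟩, ?_⟩
  · exact Pool.Agent.X59.EA.dense_typical hK hP
  · simp only [hasIndependent_iff] at h0 ⊢
    exact Pool.Agent.X59.EA.typical_env K h hB h0
  · simp only [betaC_eq]
    exact Pool.Agent.X59.EA.typical_bC K h
  · simp only [unique_iff', hasIndependent_iff]
    exact Pool.Agent.X59.EA.typical_zero K h0
  · obtain ⟨c, hc, h⟩ := Pool.Agent.X59.EA.typical_signs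
    refine ⟨c, hc, fun d hd => ?_⟩
    simp only [unique_iff', hasIndependent_iff]
    exact h d hd

end Pool.Agent.Results.MP_81d17b_pr.TypicalCouplings
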